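import Pool.Agent.Helper60.WC.SupE

/-!
# The exact size of the error from the law of its large values: limsup, liminf, and the bound for all radii and all centres
-/

set_option autoImplicit false

open MeasureTheory Real Set Filter Topology

namespace Pool.Agent.Helper60.EX

open Pool.Agent.Helper22.AC (cntc)
open Pool.Agent.Helper22.AE (area)

/-- limsup -/
theorem limsup_of {u : ℝ → ℝ} {T : ℝ} (hT : 0 < T) (hu : ∀ t : ℝ, T < t → ∀ᶠ R in atTop, u R < t)
    (hl : ∀ t : ℝ, 0 < t → t < T → ∃ᶠ R in atTop, t ≤ u R) (hb : ∃ b : ℝ, ∀ᶠ R in atTop, b ≤ u R) : limsup u atTop = T := by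
  have hbdd : IsBoundedUnder (· ≤ ·) atTop u := ⟨T + 1, by
    rw [eventually_map]
    exact (hu (T + 1) (by linarith)).mono fun R hR => hR.le⟩
  have hbdd' : IsBoundedUnder (· ≥ ·) atTop u := by
    obtain ⟨b, hb⟩ := hb
    exact ⟨b, by
      rw [eventually_map]
      exact hb⟩
  apply le_antisymm
  · refine le_of_forall_gt_imp_ge_of_dense fun t ht => ?_
    exact limsup_le_of_le hbdd'.isCoboundedUnder_le ((hu t ht).mono fun R hR => hR.le)
  · refine le_of_forall_lt_imp_le_of_dense fun t ht => ?_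
    rcases le_or_gt t 0 with h | h
    · have h1 : T / 2 ≤ limsup u atTop := le_limsup_of_frequently_le (hl (T / 2) (by linarith) (by linarith)) hbdd
      linarith
    · exact le_limsup_of_frequently_le (hl t h ht) hbdd

/-- liminf -/
theorem liminf_of {u : ℝ → ℝ} {T : ℝ} (hT : 0 < T) (hu : ∀ t : ℝ, T < t → ∀ᶠ R in atTop, -t < u R)
    (hl : ∀ t : ℝ, 0 < t → t < T → ∃ᶠ R in atTop, u R ≤ -t) (hb : ∃ b : ℝ, ∀ᶠ R in atTop, u R ≤ b) : liminf u atTop = -T := by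
  have hbdd : IsBoundedUnder (· ≥ ·) atTop u := ⟨-(T + 1), by
    rw [eventually_map]
    exact (hu (T + 1) (by linarith)).mono fun R hR => hR.le⟩
  have hbdd' : IsBoundedUnder (· ≤ ·) atTop u := by
    obtain ⟨b, hb⟩ := hb
    exact ⟨b, by
      rw [eventually_map]
      exact hb⟩
  apply le_antisymm
  · refine le_of_forall_gt_imp_ge_of_dense fun t ht => ?_
    rcases le_or_gt 0 t with h | h
    · have h1 : liminf u atTop ≤ -(T / 2) := liminf_le_of_frequently_le (hl (T / 2) (by linarith) (by linarith)) hbdd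
      linarith
    · have h1 := liminf_le_of_frequently_le (hl (-t) (by linarith) (by linarith)) hbdd
      linarith
  · refine le_of_forall_lt_imp_le_of_dense fun t ht => ?_
    have h1 := hu (-t) (by linarith)
    refine le_liminf_of_le hbdd'.isCoboundedUnder_ge (h1.mono fun R hR => ?_)
    linarith

/-- the bound for all radii `R ≥ 1` and all centres from the bound for large radii -/
theorem bound_of {H : ℝ → ℝ} {T X₀ : ℝ}
    (h : ∀ R : ℝ, X₀ ≤ R → ∀ c : ℝ × ℝ, |cntc H c R - area H * R ^ 2| ≤ T * (R ^ (1 / 2 : ℝ) * log R ^ (1 / 4 : ℝ)))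
    {ε : ℝ} (hε : 0 < ε) : ∃ C : ℝ, ∀ R : ℝ, 1 ≤ R → ∀ c : ℝ × ℝ, |cntc H c R - area H * R ^ 2| ≤ C * R ^ (1 / 2 + ε) := by
  have hA : 0 ≤ area H := ENNReal.toReal_nonneg
  obtain ⟨Y, hY⟩ : ∃ Y : ℝ, Y = max X₀ 1 := ⟨_, rfl⟩
  have hY1 : 1 ≤ Y := by rw [hY]; exact le_max_right _ _
  have hYX : X₀ ≤ Y := by rw [hY]; exact le_max_left _ _
  have hB0 : 0 ≤ Pool.Agent.Helper60.WC.BB H Y := by
    unfold Pool.Agent.Helper60.WC.BB
    positivity
  refine ⟨(Pool.Agent.Helper60.WC.BB H Y + area H * Y ^ 2) + |T| * (1 / (4 * ε)) ^ (1 / 4 : ℝ), fun R hR c => ?_⟩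
  have hR0 : 0 < R := by linarith
  have hp1 : 1 ≤ R ^ (1 / 2 + ε) := one_le_rpow hR (by linarith)
  have hAY : 0 ≤ area H * Y ^ 2 := by positivity
  have hK : 0 ≤ |T| * (1 / (4 * ε)) ^ (1 / 4 : ℝ) := by positivity
  rcases le_or_gt R Y with hRY | hRY
  · have h1 := Pool.Agent.Helper60.WC.abs_le H c R
    have h2 := Pool.Agent.Helper60.WC.BB_mono (H := H) hR0.le hRY
    have h3 : area H * R ^ 2 ≤ area H * Y ^ 2 := mul_le_mul_of_nonneg_left (pow_le_pow_left₀ hR0.le hRY 2) hA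
    calc |cntc H c R - area H * R ^ 2| ≤ Pool.Agent.Helper60.WC.BB H Y + area H * Y ^ 2 := by linarith
      _ ≤ (Pool.Agent.Helper60.WC.BB H Y + area H * Y ^ 2) + |T| * (1 / (4 * ε)) ^ (1 / 4 : ℝ) := by linarith
      _ ≤ _ := le_mul_of_one_le_right (by linarith) hp1
  · have h1 := h R (hYX.trans hRY.le) c
    have hlog : 0 ≤ log R := log_nonneg hR
    have h2 : log R ≤ R ^ (4 * ε) / (4 * ε) := log_le_rpow_div hR0.le (by linarith)
    have h3 : log R ^ (1 / 4 : ℝ) ≤ (R ^ (4 * ε) / (4 * ε)) ^ (1 / 4 : ℝ) := rpow_le_rpow hlog h2 (by norm_num)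
    have h4 : (R ^ (4 * ε) / (4 * ε)) ^ (1 / 4 : ℝ) = (1 / (4 * ε)) ^ (1 / 4 : ℝ) * R ^ ε := by
      rw [div_eq_mul_one_div, mul_rpow (by positivity) (by positivity), ← rpow_mul hR0.le, mul_comm]
      congr 2
      ring
    rw [h4] at h3
    have h5 : R ^ (1 / 2 + ε) = R ^ (1 / 2 : ℝ) * R ^ ε := rpow_add hR0 _ _
    have hq : 0 ≤ R ^ (1 / 2 : ℝ) := by positivity
    calc |cntc H c R - area H * R ^ 2| ≤ T * (R ^ (1 / 2 : ℝ) * log R ^ (1 / 4 : ℝ)) := h1
      _ ≤ |T| * (R ^ (1 / 2 : ℝ) * log R ^ (1 / 4 : ℝ)) := mul_le_mul_of_nonneg_right (le_abs_self T) (by positivity)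
      _ ≤ |T| * (R ^ (1 / 2 : ℝ) * ((1 / (4 * ε)) ^ (1 / 4 : ℝ) * R ^ ε)) :=
        mul_le_mul_of_nonneg_left (mul_le_mul_of_nonneg_left h3 hq) (abs_nonneg _)
      _ = |T| * (1 / (4 * ε)) ^ (1 / 4 : ℝ) * R ^ (1 / 2 + ε) := by rw [h5]; ring
      _ ≤ _ := mul_le_mul_of_nonneg_right (by linarith) (by positivity)

end Pool.Agent.Helper60.EX
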